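import Pool.Agent.X298.II.BDefs
import Pool.Agent.X298.EC.Main
import Pool.Agent.X298.FP.CMain

/-!
# Euler products with bounded coefficients and rotated sums at a point
-/

set_option autoImplicit false

open Filter Topology Asymptotics
open IsDedekindDomain NumberField

namespace Pool.Agent.X298.II

open Pool.Agent.X298.ST Pool.Agent.X287.CR
open Pool.Agent.W189.ML (om)
open Pool.Agent.W187.UR (Lam)

variable {F : Type} [Field F] [NumberField F] {S : Set (HeightOneSpectrum (𝓞 F))} {b : Places S × ℕ → ℂ} {B : ℝ}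

theorem exp_lam (s : ℂ) (x : Places S × ℕ) :
    Complex.exp (-(s * lam nrm x)) = ((nrm x.1 : ℂ) ^ (-s)) ^ (x.2 + 1) := by
  rw [(qsys S).csys.cpow_eq, ← Complex.exp_nat_mul]
  congr 1
  unfold lam
  push_cast
  ring

theorem gsys (hB : ∀ x, ‖b x‖ ≤ B) : GSys (lam nrm) (co b) 1 where
  cnt := by
    have := (qsys S).cnt
    infer_instance
  nonneg := (qsys S).csys.lam_nonneg
  sum := fun _ hσ => co_summable (qsys S) hB hσ

theorem log_eq (b : Places S × ℕ → ℂ) (s : ℂ) : logB b s = sr (lam nrm) (co b) s := by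
  unfold logB sr
  refine tsum_congr fun x => ?_
  rw [exp_lam]
  unfold co
  ring

theorem bTerm_eq (b : Places S × ℕ → ℂ) (s₀ : ℂ) (γ T : ℝ) (x : Places S × ℕ) :
    bTerm b s₀ γ T x = co b x * Complex.exp (-(s₀ * lam nrm x)) *
      Complex.exp ((γ * (lam nrm x / T) : ℝ) * Complex.I) * (om (lam nrm x / T) : ℂ) := by
  rw [exp_lam]
  unfold bTerm co om lam
  push_cast
  field_simp

theorem bSum_eq (b : Places S × ℕ → ℂ) (s₀ : ℂ) (γ T : ℝ) :
    bSum b s₀ γ T = -GS (lam nrm) (co b) s₀ γ T := by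
  unfold bSum GS
  rw [neg_neg]
  exact tsum_congr fun x => bTerm_eq b s₀ γ T x

theorem b_summable (hB : ∀ x, ‖b x‖ ≤ B) (s₀ : ℂ) (γ : ℝ) {T : ℝ} (hT : 0 < T) :
    Summable fun x => ‖bTerm b s₀ γ T x‖ :=
  ((gsys hB).summable s₀ γ hT).congr fun x => by rw [bTerm_eq]

theorem b_asy (hB : ∀ x, ‖b x‖ ≤ B) {s₀ : ℂ} {Λ : ℂ → ℂ} (h : IsCont b s₀ Λ) {γ : ℝ} (hγ : Real.pi / 2 < γ) :
    ∃ (m : ℤ) (r₀ : ℂ), meromorphicOrderAt Λ s₀ = m ∧ meromorphicTrailingCoeffAt Λ s₀ = Complex.exp r₀ ∧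
      (fun T : ℝ => bSum b s₀ γ T - (r₀ - m * (Real.log T - Lambda γ))) =O[atTop] (fun T : ℝ => 1 / T) := by
  obtain ⟨m, r₀, h1, h2, h3⟩ := (gsys hB).law (L := Λ) (fun s hs1 => by rw [← log_eq]; exact h.eq s hs1)
    (s₀ := s₀) (fun x hx hx1 => h.mero x hx hx1) hγ
  refine ⟨m, r₀, h1, h2, ?_⟩
  have h4 := h3.neg_left
  refine h4.congr_left fun T => ?_
  rw [bSum_eq]
  have : Lam γ = Lambda γ := rfl
  rw [this]
  ring

/-- at a point of holomorphy: order and value -/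
theorem b_hol (hB : ∀ x, ‖b x‖ ≤ B) {s₀ : ℂ} {Λ : ℂ → ℂ} (h : IsCont b s₀ Λ) (ha : AnalyticAt ℂ Λ s₀) {γ : ℝ}
    (hγ : Real.pi / 2 < γ) :
    ∃ (m : ℕ) (r₀ : ℂ), Λ s₀ = (if m = 0 then Complex.exp r₀ else 0) ∧
      (fun T : ℝ => bSum b s₀ γ T - (r₀ - m * (Real.log T - Lambda γ))) =O[atTop] (fun T : ℝ => 1 / T) := by
  obtain ⟨m, r₀, h1, h2, h3⟩ := b_asy hB h hγ
  obtain ⟨h4, h5, h6⟩ := Pool.Agent.X287.CR.value ha h1 h2
  obtain ⟨k, hk⟩ := Int.eq_ofNat_of_zero_le h4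
  refine ⟨k, r₀, ?_, ?_⟩
  · by_cases h0 : k = 0
    · rw [if_pos h0]
      exact h5 (by rw [hk, h0]; rfl)
    · rw [if_neg h0]
      exact h6 (by rw [hk]; exact_mod_cast h0)
  · rw [hk] at h3
    exact_mod_cast h3

/-- the real parts -/
theorem re_tend {S₁ : ℝ → ℂ} {m : ℕ} {r c : ℂ}
    (h : (fun T : ℝ => S₁ T - (r - m * (Real.log T - c))) =O[atTop] (fun T : ℝ => 1 / T)) :
    (m ≠ 0 → Tendsto (fun T => (S₁ T).re) atTop atBot) ∧
      (m = 0 → ∃ C : ℝ, ∀ᶠ T : ℝ in atTop, C ≤ (S₁ T).re) := by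
  have h0 : Tendsto (fun T : ℝ => 1 / T) atTop (𝓝 0) := tendsto_const_nhds.div_atTop tendsto_id
  have ht : Tendsto (fun T : ℝ => S₁ T - (r - m * (Real.log T - c))) atTop (𝓝 0) := h.trans_tendsto h0
  have hr := (Complex.continuous_re.tendsto 0).comp ht
  rw [Complex.zero_re] at hr
  have hr' : Tendsto (fun T : ℝ => (S₁ T).re - (r.re - m * (Real.log T - c.re))) atTop (𝓝 0) := by
    refine hr.congr fun T => ?_
    simp
  constructor
  · intro hm
    have hm1 : (0 : ℝ) < m := by exact_mod_cast Nat.pos_of_ne_zero hm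
    have h1 : Tendsto (fun T : ℝ => r.re - m * (Real.log T - c.re)) atTop atBot := by
      have h2 : Tendsto (fun T : ℝ => m * (Real.log T - c.re)) atTop atTop :=
        (tendsto_atTop_add_const_right _ _ Real.tendsto_log_atTop).const_mul_atTop hm1
      exact tendsto_atBot_add_const_left _ _ (tendsto_neg_atTop_atBot.comp h2)
    have h2 := hr'.add_atBot h1
    refine h2.congr fun T => ?_
    ring
  · intro hm
    refine ⟨r.re - 1, ?_⟩
    have h1 : ∀ᶠ T : ℝ in atTop, -1 < (S₁ T).re - (r.re - m * (Real.log T - c.re)) :=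
      hr'.eventually (eventually_gt_nhds (by norm_num))
    filter_upwards [h1] with T hT
    rw [hm] at hT
    push_cast at hT
    linarith

end Pool.Agent.X298.II
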