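import Mathlib
import Pool.Agent.X298.ST.Defs

/-!
# Euler products with bounded coefficients and rotated sums at a point: definitions
-/

set_option autoImplicit false

open Filter Topology
open IsDedekindDomain NumberField

namespace Pool.Agent.X298.II

open Pool.Agent.X298.ST

variable {F : Type} [Field F] [NumberField F] {S : Set (HeightOneSpectrum (𝓞 F))}

/-- `∑_{v ∉ S} ∑_{k ≥ 1} b_v(k) q_v^{-ks} / k`, with `b_v(k)` the value `b (v, k - 1)` -/
noncomputable def logB (b : Places S × ℕ → ℂ) (s : ℂ) : ℂ :=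
  ∑' x : Places S × ℕ, b x * ((nrm x.1 : ℂ) ^ (-s)) ^ (x.2 + 1) / (x.2 + 1)

/-- `Λ` is equal to the exponential of the series for `Re s > 1` and meromorphic at the points of the segment
from `s₀` to the line `Re s = 1`. -/
structure IsCont (b : Places S × ℕ → ℂ) (s₀ : ℂ) (Λ : ℂ → ℂ) : Prop where
  eq : ∀ s : ℂ, 1 < s.re → Λ s = Complex.exp (logB b s)
  mero : ∀ x : ℝ, 0 ≤ x → s₀.re + x ≤ 1 → MeromorphicAt Λ (s₀ + x)

/-- The term `b_v(k) q_v^{-k s₀} e^{iγ k log q_v / T} / (k Γ(1 + k log q_v / T))`, `v = x.1`, `k = x.2 + 1`. -/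
noncomputable def bTerm (b : Places S × ℕ → ℂ) (s₀ : ℂ) (γ T : ℝ) (x : Places S × ℕ) : ℂ :=
  b x * ((nrm x.1 : ℂ) ^ (-s₀)) ^ (x.2 + 1) *
      Complex.exp ((γ * ((x.2 + 1) * Real.log (nrm x.1) / T) : ℝ) * Complex.I) /
    (((x.2 + 1) * Real.Gamma (1 + (x.2 + 1) * Real.log (nrm x.1) / T) : ℝ) : ℂ)

/-- the sum of the terms -/
noncomputable def bSum (b : Places S × ℕ → ℂ) (s₀ : ℂ) (γ T : ℝ) : ℂ := ∑' x, bTerm b s₀ γ T x

end Pool.Agent.X298.II
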